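import Pool.Agent.H546.F88
import Pool.Agent.H546.Lin2

set_option autoImplicit false

/-!
# `∑ (4k)!/k!^4 / 1584^(2k)` modulo `p²` (assertion (a))

The proof: the sum is the square of a Legendre polynomial modulo `p²` (Clausen); the elliptic curve
`y² = V³ - 4V² + 4zV`, `z = 1/2 - 35√2/99`, with complex multiplication by the order of discriminant `-88`, has
isogenies of degrees `2` and `11` to its conjugate (the second is verified by an evaluation in the kernel); over the
Witt vectors of an algebraic closure of `ZMod p` a combination of these isogenies of degree `p` lifts the Frobenius,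
and comparing expansions modulo `p²` gives the value of the Legendre polynomial modulo `p²`. In the last case the
Hasse invariant vanishes.
-/

open Finset

namespace Pool.Agent.Results.MP_5b47ee_nt.FifteenEightyFour

/-- the sum `∑_{k<p} (4k)!/(k!)^4 / 1584^(2k)` -/
def S (p : ℕ) : ℚ := ∑ k ∈ range p, (((4 * k).factorial : ℚ) / (k.factorial : ℚ) ^ 4) / 1584 ^ (2 * k)

/-- congruence modulo `p²` of rational numbers: `(a - b) / p²` has denominator prime to `p` -/
def Cong (p : ℕ) (a b : ℚ) : Prop := p.Coprime ((a - b) / (p : ℚ) ^ 2).den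

open Pool.Agent.H546

theorem s13 : S 13 = 108070192484479933830422345829692620876306048945483963813669139773397647775/108069158721839241849041760030038545054955903785005321465816527792542580736 := by
  norm_num [S, sum_range_succ, Nat.factorial]

/-- **Assertion (a) of Q1.** -/
theorem result (p : ℕ) [hp : Fact p.Prime] (h3 : 3 < p) (h11 : p ≠ 11) :
    (legendreSym p (-11) = 1 → legendreSym p 2 = 1 → ∀ x y : ℤ, (p : ℤ) = x ^ 2 + 22 * y ^ 2 →
      Cong p (S p) (4 * x ^ 2 - 2 * p)) ∧
    (legendreSym p (-11) = -1 → legendreSym p 2 = -1 → ∀ x y : ℤ, (p : ℤ) = 2 * x ^ 2 + 11 * y ^ 2 →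
      Cong p (S p) (2 * p - 8 * x ^ 2)) ∧
    (legendreSym p (-11) ≠ legendreSym p 2 → Cong p (S p) 0) := by
  have hmul : legendreSym p (-22) = legendreSym p (-11) * legendreSym p 2 := by
    rw [← legendreSym.mul]; norm_num
  have n11 : ¬ (p : ℤ) ∣ -11 := ndvd_fac [(11, 1)] (by simp; exact ⟨by norm_num, h11⟩) (by norm_num)
  have n2 : ¬ (p : ℤ) ∣ 2 := ndvd_fac [(2, 1)] (by simp; exact ⟨by norm_num, by omega⟩) (by norm_num)
  have g11 := legendreSym.eq_one_or_neg_one p (a := -11) (fun h0 => n11 ((ZMod.intCast_zmod_eq_zero_iff_dvd _ p).mp h0))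
  have g2 := legendreSym.eq_one_or_neg_one p (a := 2) (fun h0 => n2 ((ZMod.intCast_zmod_eq_zero_iff_dvd _ p).mp h0))
  have hM : ¬ (p : ℤ) ∣ 2509056 := ndvd_fac [(2, 8), (3, 4), (11, 2)]
    (by simp; exact ⟨⟨by norm_num, by omega⟩, ⟨by norm_num, by omega⟩, ⟨by norm_num, h11⟩⟩) (by norm_num)
  obtain ⟨wi, hwi⟩ := inv_exists hM
  have tr : ∀ E : ℤ, ∑ k ∈ range p, (k.centralBinom : ZMod (p ^ 2)) *
      ((u4 k : ℕ) : ZMod (p ^ 2)) * wi ^ k = ((E : ℤ) : ZMod (p ^ 2)) →
      Cong p (S p) (E : ℚ) := by
    intro E hE
    have h := tr4 hM hwi E hE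
    have e : S p = ∑ k ∈ range p, (((4 * k).factorial : ℚ) / (k.factorial : ℚ) ^ 4) / ((2509056 : ℤ) : ℚ) ^ k := by
      unfold S
      refine sum_congr rfl fun k _ => ?_
      rw [pow_mul]; norm_num
    unfold Cong
    rw [e]
    exact h
  obtain ⟨m1, m2, m3⟩ := d88 p h3 h11 hwi
  have small : legendreSym p (-22) = 1 → 17 < p ∨ p = 13 := by
    intro h
    by_contra hcon
    have hpp := hp.out
    have : p = 5 ∨ p = 7 ∨ p = 17 := by
      have h17 : p ≤ 17 := by omega
      interval_cases p <;> first | omega | (exfalso; revert hpp; norm_num)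
    rcases this with rfl | rfl | rfl
    · have f : legendreSym 5 (-22) = -1 := by norm_num
      rw [f] at h; exact absurd h (by norm_num)
    · have f : legendreSym 7 (-22) = -1 := by norm_num
      rw [f] at h; exact absurd h (by norm_num)
    · have f : legendreSym 17 (-22) = -1 := by norm_num
      rw [f] at h; exact absurd h (by norm_num)
  refine ⟨fun hc1 hc2 x y hxy => ?_, fun hc1 hc2 x y hxy => ?_, fun hc => ?_⟩
  · rcases small (by rw [hmul, hc1, hc2]; norm_num) with h17 | rfl
    · have := tr _ (m1 hc1 hc2 h17 x y hxy)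
      push_cast at this; exact this
    · exfalso
      have f : legendreSym 13 2 = -1 := by norm_num
      rw [f] at hc2; exact absurd hc2 (by norm_num)
  · rcases small (by rw [hmul, hc1, hc2]; norm_num) with h17 | rfl
    · have := tr _ (m2 hc1 hc2 h17 x y hxy)
      push_cast at this; exact this
    · have hx0 := sq_nonneg x
      have hy0 := sq_nonneg y
      have hx2 : x ^ 2 = 1 := by
        push_cast at hxy
        have hy1 : y < 2 := by nlinarith
        have hy2 : -2 < y := by nlinarith
        have hx1 : x < 3 := by nlinarith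
        have hx2 : -3 < x := by nlinarith
        interval_cases x <;> interval_cases y <;> omega
      have hxq : (x : ℚ) ^ 2 = 1 := by exact_mod_cast hx2
      rw [hxq]
      refine cop_of_eq (n := -10870856003009623783741593696514799941496451001092377648349280239599815417) (d := 108069158721839241849041760030038545054955903785005321465816527792542580736) ?_ (by norm_num)
      rw [s13]; norm_num
  · have := tr _ (m3 (by
      rw [hmul]
      rcases g11 with h | h <;> rcases g2 with h' | h' <;> rw [h, h'] at hc ⊢ <;> first | (exact absurd rfl hc) | norm_num))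
    push_cast at this; exact this

end Pool.Agent.Results.MP_5b47ee_nt.FifteenEightyFour
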